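import Mathlib

set_option autoImplicit false

open FirstOrder Function
open CategoryTheory (Bundled)

namespace Pool.Agent.Results.MP_ae912c_co.Equiv

universe u v

variable {L : FirstOrder.Language.{u, v}}

/-- The finite `k`-sunflower property: every `B` in `K` has a `C` in `K` such that, whenever the
points of `C` are realised as distinct `k`-sets, some copy of `B` in `C` is a sunflower. -/
def Sunflower (K : Set (Bundled.{0} L.Structure)) (k : ℕ) : Prop :=
  ∀ B ∈ K, ∃ C ∈ K, ∀ (α : Type) (f : C → Set α), Injective f → (∀ x, (f x).encard = k) →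
    ∃ e : B ↪[L] C, ∃ c : Set α, ∀ a b, a ≠ b → f (e a) ∩ f (e b) = c

theorem greedy {X : Type} (d : ℕ) (R : X → X → Prop) (hs : ∀ x y, R x y → R y x)
    (hi : ∀ x, ¬ R x x) (hd : ∀ x, {y | R x y}.encard ≤ d) (s : Finset X) :
    ∃ c : X → Fin (d + 1), ∀ x ∈ s, ∀ y ∈ s, R x y → c x ≠ c y := by
  classical
  induction s using Finset.induction_on with
  | empty => exact ⟨fun _ => 0, by simp⟩
  | insert a s ha ih =>
    obtain ⟨c, hc⟩ := ih
    obtain ⟨t, ht⟩ : ∃ t, t ∉ c '' {y | R a y} := by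
      by_contra h
      push Not at h
      have h1 := (Set.encard_image_le c {y | R a y}).trans (hd a)
      rw [Set.eq_univ_of_forall h, Set.encard_univ] at h1
      simp only [ENat.card_eq_coe_fintype_card, Fintype.card_fin] at h1
      have : d + 1 ≤ d := by exact_mod_cast h1
      omega
    refine ⟨update c a t, fun x hx y hy h => ?_⟩
    by_cases h1 : x = a
    · subst h1
      have h2 : y ≠ x := fun e => hi x (e ▸ h)
      rw [update_self, update_of_ne h2]
      exact fun e => ht ⟨y, h, e.symm⟩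
    · by_cases h2 : y = a
      · subst h2
        rw [update_self, update_of_ne h1]
        exact fun e => ht ⟨x, hs _ _ h, e⟩
      · rw [update_of_ne h1, update_of_ne h2]
        exact hc x ((Finset.mem_insert.1 hx).resolve_left h1) y
          ((Finset.mem_insert.1 hy).resolve_left h2) h

variable {K : Set (Bundled.{0} L.Structure)}

theorem canon (h : Sunflower K 2) {B : Bundled.{0} L.Structure} (hB : B ∈ K) :
    ∃ C ∈ K, ∀ (α : Type) (χ : C → α), ∃ e : B ↪[L] C,
      (∀ a b, χ (e a) = χ (e b)) ∨ Injective fun a => χ (e a) := by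
  obtain ⟨C, hC, H⟩ := h B hB
  refine ⟨C, hC, fun α χ => ?_⟩
  obtain ⟨e, c, he⟩ := H (α ⊕ C) (fun x => {Sum.inl (χ x), Sum.inr x})
    (fun x y hxy => by
      have : (Sum.inr x : α ⊕ C) ∈ ({Sum.inl (χ y), Sum.inr y} : Set (α ⊕ C)) := by
        have h2 : ({Sum.inl (χ x), Sum.inr x} : Set (α ⊕ C)) = {Sum.inl (χ y), Sum.inr y} := hxy
        rw [← h2]; simp
      simpa using this)
    (fun x => Set.encard_pair (by simp))
  refine ⟨e, ?_⟩
  by_cases hinj : Injective fun a => χ (e a)
  · exact Or.inr hinj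
  left
  simp only [Injective, not_forall] at hinj
  obtain ⟨a, b, hab, hne⟩ := hinj
  have h1 : (Sum.inl (χ (e a)) : α ⊕ C) ∈ c := by
    rw [← he a b hne]; simp [hab]
  intro x y
  by_cases hxy : x = y
  · rw [hxy]
  rw [← he x y hxy] at h1
  simp only [Set.mem_inter_iff, Set.mem_insert_iff, Sum.inl.injEq, Set.mem_singleton_iff,
    reduceCtorEq, or_false] at h1
  exact h1.1.symm.trans h1.2

theorem grow (hf : ∀ B ∈ K, Finite B) (h : Sunflower K 2) {B : Bundled.{0} L.Structure}
    (hB : B ∈ K) (h3 : 3 ≤ Nat.card B) (m : ℕ) :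
    ∃ C ∈ K, Nonempty (B ↪[L] C) ∧ 3 + m ≤ Nat.card C := by
  classical
  induction m with
  | zero => exact ⟨B, hB, ⟨FirstOrder.Language.Embedding.refl L B⟩, h3⟩
  | succ m ih =>
    obtain ⟨C, hC, ⟨e⟩, hm⟩ := ih
    obtain ⟨D, hD, H⟩ := canon h hC
    have := hf C hC
    have := hf D hD
    obtain ⟨e0, -⟩ := H Unit fun _ => ()
    refine ⟨D, hD, ⟨e0.comp e⟩, ?_⟩
    by_contra hlt
    have : Nontrivial C := Finite.one_lt_card_iff_nontrivial.1 (by omega)
    obtain ⟨x0⟩ : Nonempty C := inferInstance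
    obtain ⟨e1, he⟩ := H Bool fun y => decide (y = e0 x0)
    have hs : Bijective e1 := e1.injective.bijective_of_nat_card_le (by omega)
    rcases he with he | he
    · obtain ⟨a, ha⟩ := hs.2 (e0 x0)
      obtain ⟨b, hb⟩ := exists_ne a
      have h1 := he a b
      simp only [ha, decide_true, Bool.true_eq, decide_eq_true_eq] at h1
      exact hb (e1.injective (h1.trans ha.symm))
    · have := Nat.card_le_card_of_injective _ he
      simp only [Nat.card_eq_fintype_card, Fintype.card_bool] at this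
      omega

theorem mono (hf : ∀ B ∈ K, Finite B) (h : Sunflower K 2) {B : Bundled.{0} L.Structure}
    (hB : B ∈ K) (h3 : 3 ≤ Nat.card B) (r : ℕ) :
    ∃ C ∈ K, ∀ χ : C → Fin r, ∃ e : B ↪[L] C, ∀ a b, χ (e a) = χ (e b) := by
  obtain ⟨C, hC, ⟨e⟩, hm⟩ := grow hf h hB h3 r
  obtain ⟨D, hD, H⟩ := canon h hC
  refine ⟨D, hD, fun χ => ?_⟩
  obtain ⟨e1, he | he⟩ := H _ χ
  · exact ⟨e1.comp e, fun a b => he _ _⟩
  · have := Nat.card_le_card_of_injective _ he
    simp only [Nat.card_eq_fintype_card, Fintype.card_fin] at this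
    omega

theorem canon_many (h : Sunflower K 2) (k : ℕ) : ∀ B ∈ K,
    ∃ C ∈ K, ∀ (α : Type) (χ : Fin k → C → α), ∃ e : B ↪[L] C, ∀ i,
      (∀ a b, χ i (e a) = χ i (e b)) ∨ Injective fun a => χ i (e a) := by
  induction k with
  | zero => exact fun B hB => ⟨B, hB, fun _ _ => ⟨FirstOrder.Language.Embedding.refl L B, fun i => i.elim0⟩⟩
  | succ k ih =>
    intro B hB
    obtain ⟨C, hC, H⟩ := canon h hB
    obtain ⟨D, hD, H'⟩ := ih C hC
    refine ⟨D, hD, fun α χ => ?_⟩
    obtain ⟨e1, h1⟩ := H' α fun i => χ i.succ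
    obtain ⟨e0, h0⟩ := H α fun x => χ 0 (e1 x)
    refine ⟨e1.comp e0, fun i => Fin.cases h0 (fun i => ?_) i⟩
    rcases h1 i with h2 | h2
    · exact Or.inl fun a b => h2 _ _
    · exact Or.inr (h2.comp e0.injective)

/-- For a class of finite structures, the finite `2`-sunflower property is equivalent to the
finite sunflower property. -/
theorem result (L : FirstOrder.Language.{u, v}) (K : Set (Bundled.{0} L.Structure))
    (hf : ∀ B ∈ K, Finite B) : Sunflower K 2 ↔ ∀ k, 1 ≤ k → Sunflower K k := by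
  refine ⟨fun h k _ B hB => ?_, fun h => h 2 (by norm_num)⟩
  have := hf B hB
  by_cases h3 : 3 ≤ Nat.card B
  swap
  · refine ⟨B, hB, fun α f _ _ => ⟨FirstOrder.Language.Embedding.refl L B, ?_⟩⟩
    by_cases hn : ∃ a b : B, a ≠ b
    · obtain ⟨a, b, hab⟩ := hn
      refine ⟨f a ∩ f b, fun x y hxy => ?_⟩
      have key : ∀ z, z = a ∨ z = b := by
        intro z
        by_contra hz
        push Not at hz
        have h1 := Set.ncard_le_card ({z, a, b} : Set B)
        rw [Set.ncard_eq_three.2 ⟨z, a, b, hz.1, hz.2, hab, rfl⟩] at h1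
        exact h3 h1
      rcases key x with rfl | rfl <;> rcases key y with rfl | rfl
      · exact absurd rfl hxy
      · rfl
      · exact Set.inter_comm _ _
      · exact absurd rfl hxy
    · exact ⟨∅, fun a b hab => absurd ⟨a, b, hab⟩ hn⟩
  obtain ⟨C, hC, H⟩ := mono hf h hB h3 (k * k + 1)
  obtain ⟨D, hD, H'⟩ := canon_many h k C hC
  refine ⟨D, hD, fun α f _ hk => ?_⟩
  have hen : ∀ x, ∃ g : Fin k → α, Injective g ∧ Set.range g = f x := by
    intro x
    have hfin : (f x).Finite := Set.finite_of_encard_eq_coe (hk x)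
    have : Finite (f x) := hfin
    have hc : Nat.card (f x) = k := by
      have h1 := hfin.cast_ncard_eq
      rw [hk x] at h1
      exact_mod_cast h1
    refine ⟨fun i => ((Finite.equivFinOfCardEq hc).symm i : α),
      Subtype.val_injective.comp (Finite.equivFinOfCardEq hc).symm.injective, ?_⟩
    ext y
    constructor
    · rintro ⟨i, rfl⟩; exact Subtype.prop _
    · intro hy; exact ⟨Finite.equivFinOfCardEq hc ⟨y, hy⟩, by simp⟩
  choose g hg1 hg2 using hen
  obtain ⟨e, he⟩ := H' α fun i x => g x i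
  have := hf C hC
  have := Fintype.ofFinite C
  obtain ⟨c, hc⟩ := greedy (k * k)
    (fun x y : C => x ≠ y ∧ ∃ i j, i ≠ j ∧ g (e x) i = g (e y) j)
    (fun x y ⟨a, i, j, b, d⟩ => ⟨a.symm, j, i, b.symm, d.symm⟩) (fun x h => h.1 rfl)
    (fun x => by
      have h1 : ∀ y : {y | x ≠ y ∧ ∃ i j, i ≠ j ∧ g (e x) i = g (e y) j},
          ∃ p : Fin k × Fin k, p.1 ≠ p.2 ∧ g (e x) p.1 = g (e y) p.2 :=
        fun y => let ⟨i, j, h⟩ := y.2.2; ⟨(i, j), h⟩
      choose p hp1 hp2 using h1
      have hinj : Injective p := by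
        intro y z hyz
        rcases he (p y).2 with h2 | h2
        · exact absurd (hg1 _ ((hp2 y).trans (h2 y x))) (hp1 y)
        · apply Subtype.ext
          apply h2
          have h4 := hp2 z
          rw [← hyz] at h4
          exact (hp2 y).symm.trans h4
      have h5 := ENat.card_le_card_of_injective hinj
      simpa using h5)
    Finset.univ
  obtain ⟨e0, h0⟩ := H c
  refine ⟨e.comp e0, {v | ∃ i, ∀ x, g (e x) i = v}, fun a b hab => ?_⟩
  have hne : e0 a ≠ e0 b := fun h => hab (e0.injective h)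
  ext v
  simp only [FirstOrder.Language.Embedding.comp_apply, ← hg2, Set.mem_inter_iff, Set.mem_range,
    Set.mem_ofPred_eq]
  constructor
  · rintro ⟨⟨i, hi⟩, j, hj⟩
    by_cases hij : i = j
    · subst hij
      rcases he i with h2 | h2
      · exact ⟨i, fun x => (h2 x _).trans hi⟩
      · exact absurd (h2 (hi.trans hj.symm)) hne
    · exact absurd (h0 a b) (hc _ (Finset.mem_univ _) _ (Finset.mem_univ _)
        ⟨hne, i, j, hij, hi.trans hj.symm⟩)
  · rintro ⟨i, hi⟩
    exact ⟨⟨i, hi _⟩, i, hi _⟩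

end Pool.Agent.Results.MP_ae912c_co.Equiv
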